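import Mathlib

set_option autoImplicit false

/-! From matrix groups to compact quotients of topological groups. -/

namespace Pool.Agent.TH444.NB

open Topology

/-- The value map of a group of unitriangular matrices is inducing. -/
theorem inducing_val {N : ℕ} (H : Subgroup (Matrix (Fin N) (Fin N) ℝ)ˣ)
    (hH : ∀ g ∈ H, (∀ i, (g : Matrix (Fin N) (Fin N) ℝ) i i = 1) ∧
        ∀ i j, j < i → (g : Matrix (Fin N) (Fin N) ℝ) i j = 0) :
    IsInducing (fun k : H => ((k : (Matrix (Fin N) (Fin N) ℝ)ˣ) : Matrix (Fin N) (Fin N) ℝ)) := by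
  let f : H → Matrix (Fin N) (Fin N) ℝ :=
    fun k => ((k : (Matrix (Fin N) (Fin N) ℝ)ˣ) : Matrix (Fin N) (Fin N) ℝ)
  let h : Matrix (Fin N) (Fin N) ℝ → Matrix (Fin N) (Fin N) ℝ × (Matrix (Fin N) (Fin N) ℝ)ᵐᵒᵖ :=
    fun A => (A, MulOpposite.op A.adjugate)
  have hf : Continuous f := Units.continuous_val.comp continuous_subtype_val
  have hh : Continuous h := by
    refine continuous_id.prodMk (MulOpposite.continuous_op.comp ?_)
    exact continuous_id.matrix_adjugate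
  have hhf : h ∘ f = (Units.embedProduct (Matrix (Fin N) (Fin N) ℝ)) ∘ Subtype.val := by
    funext k
    have hdet : (f k).det = 1 := by
      rw [Matrix.det_of_upperTriangular (fun i j hij => (hH k k.2).2 i j hij)]
      exact Finset.prod_eq_one (fun i _ => (hH k k.2).1 i)
    have hinv : (((k : (Matrix (Fin N) (Fin N) ℝ)ˣ)⁻¹ : (Matrix (Fin N) (Fin N) ℝ)ˣ) :
        Matrix (Fin N) (Fin N) ℝ) = (f k).adjugate := by
      apply Units.inv_eq_of_mul_eq_one_right
      change f k * (f k).adjugate = 1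
      rw [Matrix.mul_adjugate, hdet, one_smul]
    change (f k, MulOpposite.op (f k).adjugate) = (f k, MulOpposite.op _)
    rw [← hinv]
  have hind : IsInducing (h ∘ f) := by
    rw [hhf]
    exact Units.isInducing_embedProduct.comp IsInducing.subtypeVal
  exact IsInducing.of_comp hf hh hind

/-- If recurrence holds for unitriangular groups with bounded (cocompact) subgroups then it holds
for all compact quotients of topological groups receiving an open continuous homomorphism from a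
group of unitriangular matrices. -/
theorem nil_rec (S : Set ℕ)
    (hcore : ∀ {N : ℕ} (G Γ : Subgroup (Matrix (Fin N) (Fin N) ℝ)ˣ), Γ ≤ G →
      (∀ g ∈ G, (∀ i, (g : Matrix (Fin N) (Fin N) ℝ) i i = 1) ∧
        ∀ i j, j < i → (g : Matrix (Fin N) (Fin N) ℝ) i j = 0) → ∀ C : ℝ,
      (∀ g ∈ G, ∃ γ ∈ Γ, ∀ i j, |((g * γ : (Matrix (Fin N) (Fin N) ℝ)ˣ) :
        Matrix (Fin N) (Fin N) ℝ) i j| ≤ C) →
      ∀ g ∈ G, ∀ ε : ℝ, 0 < ε → ∃ s ∈ S, ∃ γ ∈ Γ, ∀ i j,
        |((g ^ s * γ : (Matrix (Fin N) (Fin N) ℝ)ˣ) : Matrix (Fin N) (Fin N) ℝ) i j -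
          (1 : Matrix (Fin N) (Fin N) ℝ) i j| < ε)
    (N : ℕ) (H : Subgroup (Matrix (Fin N) (Fin N) ℝ)ˣ)
    (hH : ∀ g ∈ H, (∀ i, (g : Matrix (Fin N) (Fin N) ℝ) i i = 1) ∧
        ∀ i j, j < i → (g : Matrix (Fin N) (Fin N) ℝ) i j = 0)
    (L : Type*) [Group L] [TopologicalSpace L] [IsTopologicalGroup L] (φ : H →* L)
    (hφ : Continuous φ) (hφ' : IsOpenMap φ) (Γ : Subgroup L) (hc : CompactSpace (L ⧸ Γ))
    (h : H) (x : L ⧸ Γ) (U : Set (L ⧸ Γ)) (hU : IsOpen U) (hx : x ∈ U) :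
    ∃ s ∈ S, (φ h) ^ s • x ∈ U := by
  classical
  -- the orbit maps
  have hact : ∀ y : L ⧸ Γ, Continuous (fun k : H => φ k • y) ∧
      IsOpenMap (fun k : H => φ k • y) := by
    intro y
    obtain ⟨l, rfl⟩ := QuotientGroup.mk_surjective y
    have h1 : (fun k : H => φ k • (QuotientGroup.mk l : L ⧸ Γ)) =
        (QuotientGroup.mk : L → L ⧸ Γ) ∘ (fun m => m * l) ∘ φ := by
      funext k; rfl
    rw [h1]
    refine ⟨?_, ?_⟩
    · exact QuotientGroup.continuous_mk.comp ((continuous_mul_right l).comp hφ)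
    · exact QuotientGroup.isOpenMap_coe.comp ((isOpenMap_mul_right l).comp hφ')
  set act : H → L ⧸ Γ := fun k => φ k • x with hactdef
  -- the orbit is compact
  have hopen : ∀ y : L ⧸ Γ, IsOpen (Set.range (fun k : H => φ k • y)) :=
    fun y => (hact y).2.isOpen_range
  have hclosed : IsClosed (Set.range act) := by
    rw [← isOpen_compl_iff]
    have h1 : (Set.range act)ᶜ = ⋃ y ∈ (Set.range act)ᶜ, Set.range (fun k : H => φ k • y) := by
      ext z
      constructor
      · intro hz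
        exact Set.mem_biUnion hz ⟨1, by simp⟩
      · intro hz
        obtain ⟨y, hy, k, rfl⟩ := Set.mem_iUnion₂.1 hz
        rintro ⟨k', hk'⟩
        apply hy
        refine ⟨k⁻¹ * k', ?_⟩
        change φ (k⁻¹ * k') • x = y
        rw [map_mul, mul_smul, map_inv, inv_smul_eq_iff]
        exact hk'
    rw [h1]
    exact isOpen_biUnion (fun y _ => hopen y)
  have hcompact : IsCompact (Set.range act) := hclosed.isCompact
  -- bounded parts
  let ev : H → Matrix (Fin N) (Fin N) ℝ :=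
    fun k => ((k : (Matrix (Fin N) (Fin N) ℝ)ˣ) : Matrix (Fin N) (Fin N) ℝ)
  have hev : Continuous ev := Units.continuous_val.comp continuous_subtype_val
  let B : ℕ → Set H := fun n => {k | ∀ i j, |ev k i j| < n}
  have hBopen : ∀ n, IsOpen (B n) := by
    intro n
    have h1 : B n = ⋂ i, ⋂ j, {k | |ev k i j| < n} := by
      ext k; simp [B]
    rw [h1]
    refine isOpen_iInter_of_finite (fun i => isOpen_iInter_of_finite (fun j => ?_))
    have h2 : Continuous (fun k => |ev k i j|) := (hev.matrix_elem i j).abs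
    exact isOpen_lt h2 continuous_const
  have hBmono : Monotone B := by
    intro n m hnm k hk i j
    exact (hk i j).trans_le (by exact_mod_cast hnm)
  have hBcover : ∀ k : H, ∃ n, k ∈ B n := by
    intro k
    obtain ⟨n, hn⟩ := exists_nat_gt (∑ i, ∑ j, |ev k i j|)
    refine ⟨n, fun i j => lt_of_le_of_lt ?_ hn⟩
    have h1 : |ev k i j| ≤ ∑ j, |ev k i j| :=
      Finset.single_le_sum (f := fun j => |ev k i j|) (fun _ _ => abs_nonneg _) (Finset.mem_univ j)
    have h2 : ∑ j, |ev k i j| ≤ ∑ i, ∑ j, |ev k i j| :=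
      Finset.single_le_sum (f := fun i => ∑ j, |ev k i j|)
        (fun _ _ => Finset.sum_nonneg (fun _ _ => abs_nonneg _)) (Finset.mem_univ i)
    exact h1.trans h2
  obtain ⟨n, hn⟩ := hcompact.elim_directed_cover (fun n => act '' B n)
    (fun n => (hact x).2 _ (hBopen n))
    (by
      rintro _ ⟨k, rfl⟩
      obtain ⟨n, hn⟩ := hBcover k
      exact Set.mem_iUnion.2 ⟨n, k, hn, rfl⟩)
    (by
      intro a b
      exact ⟨max a b, Set.image_mono (hBmono (le_max_left _ _)),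
        Set.image_mono (hBmono (le_max_right _ _))⟩)
  -- the stabiliser
  let Hx : Subgroup H := (MulAction.stabilizer L x).comap φ
  have hHx : ∀ k, k ∈ Hx ↔ φ k • x = x := fun k => Iff.rfl
  -- the neighbourhood
  have hWopen : IsOpen (act ⁻¹' U) := hU.preimage (hact x).1
  have h1W : (1 : H) ∈ act ⁻¹' U := by
    change φ 1 • x ∈ U
    rw [map_one, one_smul]; exact hx
  obtain ⟨ε, hε, hεW⟩ : ∃ ε : ℝ, 0 < ε ∧ ∀ k : H,
      (∀ i j, |ev k i j - (1 : Matrix (Fin N) (Fin N) ℝ) i j| < ε) → k ∈ act ⁻¹' U := by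
    have h1 := hWopen.mem_nhds h1W
    rw [(inducing_val H hH).nhds_eq_comap, Filter.mem_comap] at h1
    obtain ⟨V, hV, hVW⟩ := h1
    have hV' : V ∈ 𝓝 (1 : Matrix (Fin N) (Fin N) ℝ) := hV
    obtain ⟨ε, hε, hball⟩ := Metric.mem_nhds_iff (α := Fin N → Fin N → ℝ).1 hV'
    refine ⟨ε, hε, fun k hk => hVW ?_⟩
    apply hball
    rw [Metric.mem_ball, dist_pi_lt_iff hε]
    intro i
    rw [dist_pi_lt_iff hε]
    intro j
    rw [Real.dist_eq]
    exact hk i j
  obtain ⟨s, hs, γ, hγ, hsγ⟩ := hcore H (Hx.map H.subtype) (by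
      rintro _ ⟨k, -, rfl⟩
      exact k.2) hH n (by
      intro g hg
      obtain ⟨b, hb, hb2⟩ := hn ⟨⟨g, hg⟩, rfl⟩
      have hb2' : φ b • x = φ ⟨g, hg⟩ • x := hb2
      refine ⟨((⟨g, hg⟩⁻¹ * b : H) : (Matrix (Fin N) (Fin N) ℝ)ˣ), ⟨⟨g, hg⟩⁻¹ * b, ?_, rfl⟩, ?_⟩
      · change φ (⟨g, hg⟩⁻¹ * b) • x = x
        rw [map_mul, mul_smul, hb2', map_inv, inv_smul_smul]
      · intro i j
        have h1 : g * ((⟨g, hg⟩⁻¹ * b : H) : (Matrix (Fin N) (Fin N) ℝ)ˣ) = b := by
          rw [Subgroup.coe_mul, Subgroup.coe_inv, mul_inv_cancel_left]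
        rw [h1]
        exact (hb i j).le) h h.2 ε hε
  obtain ⟨k, hk, rfl⟩ := hγ
  refine ⟨s, hs, ?_⟩
  have h1 : (h ^ s * k : H) ∈ act ⁻¹' U := hεW _ hsγ
  have h2 : act (h ^ s * k) = (φ h) ^ s • x := by
    change φ (h ^ s * k) • x = _
    rw [map_mul, mul_smul, (hHx k).1 hk, map_pow]
  rw [← h2]
  exact h1

end Pool.Agent.TH444.NB
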