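import Mathlib
import Pool.Agent.TH202.FlRes
import Pool.Agent.TH202.Cen

/-!
# Valuations of `F(c)` trivial on `F`
-/

set_option autoImplicit false
namespace Pool.Agent.TH444.FL_HOR
open Pool.Agent.H436R3.Fol Pool.Agent.TH202 MvPolynomial

variable {K : Type} [Field K] [Algebra ℂ K]

open Pool.Agent.TH189.C8_VS

theorem frac_c (d : Dat K) (f : K) : ∃ a b : Polynomial (Fc d),
    f = Polynomial.aeval d.c a / Polynomial.aeval d.c b := by
  have hz : f ∈ IntermediateField.adjoin (Fc d) {d.c} := top_eq d ▸ IntermediateField.mem_top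
  obtain ⟨r, s, h⟩ := (IntermediateField.mem_adjoin_simple_iff (Fc d) f).1 hz
  exact ⟨r, s, h⟩

theorem aeval_ne {d : Dat K} {q : Polynomial (Fc d)} (hq : q ≠ 0) :
    Polynomial.aeval d.c q ≠ 0 := by
  intro h
  exact c_trans d ⟨q, hq, h⟩

theorem reg_poly {d : Dat K} {w : DVal K} (htr : IsTriv d w) (hc : 0 ≤ w.ord d.c)
    (q : Polynomial (Fc d)) : w.Reg (Polynomial.aeval d.c q) := by
  rw [Polynomial.aeval_eq_sum_range]
  apply w.O.sum_mem
  intro i _
  rw [Algebra.smul_def]
  apply w.O.mul_mem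
  · by_cases hk : q.coeff i = 0
    · rw [hk, map_zero]; exact w.O.zero_mem
    · refine Or.inr (htr _ (q.coeff i).2 ?_).ge
      intro h
      exact hk (Subtype.ext h)
  · exact w.O.pow_mem (Or.inr hc) i

theorem ord_eq_zero {w : DVal K} {f : K} (hf : w.Reg f) (h0 : f ≠ 0) (hp : ¬ w.Pos f) :
    w.ord f = 0 := by
  have h1 := hf.resolve_left h0
  have h2 : ¬ 0 < w.ord f := fun h => hp (Or.inr h)
  omega

/-- The orders of the polynomials in `c` when the positive ones are the multiples of `π`. -/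
theorem ord_poly {d : Dat K} {w : DVal K} (htr : IsTriv d w) (hc : 0 ≤ w.ord d.c)
    {π : Polynomial (Fc d)} (hπ : Irreducible π)
    (h : ∀ q : Polynomial (Fc d), w.Pos (Polynomial.aeval d.c q) → π ∣ q)
    {q : Polynomial (Fc d)} (hq : q ≠ 0) :
    w.ord (Polynomial.aeval d.c q) = (multiplicity π q : ℤ) * w.ord (Polynomial.aeval d.c π) := by
  have hfin : FiniteMultiplicity π q := FiniteMultiplicity.of_not_isUnit hπ.not_isUnit hq
  obtain ⟨u, hu, hnd⟩ := hfin.exists_eq_pow_mul_and_not_dvd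
  have hu0 : u ≠ 0 := by
    rintro rfl
    exact hnd (dvd_zero _)
  have h1 : w.ord (Polynomial.aeval d.c u) = 0 :=
    ord_eq_zero (reg_poly htr hc u) (aeval_ne hu0) (fun hp => hnd (h u hp))
  conv_lhs => rw [hu]
  rw [map_mul, map_pow, w.map_mul _ _ (pow_ne_zero _ (aeval_ne hπ.ne_zero)) (aeval_ne hu0),
    w.ord_pow (aeval_ne hπ.ne_zero), h1, add_zero]

/-- Valuations trivial on `F` and regular on `F[c]`. -/
theorem hor {d : Dat K} {w : DVal K} (htr : IsTriv d w) (hc : 0 ≤ w.ord d.c) :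
    ∃ π : Polynomial (Fc d), Irreducible π ∧ w.ord (Polynomial.aeval d.c π) = 1 ∧
      ∀ q : Polynomial (Fc d), w.Pos (Polynomial.aeval d.c q) ↔ π ∣ q := by
  classical
  -- the prime ideal
  let P : Ideal (Polynomial (Fc d)) :=
    { carrier := {q | w.Pos (Polynomial.aeval d.c q)}
      add_mem' := by
        intro a b ha hb
        change w.Pos (Polynomial.aeval d.c (a + b))
        rw [map_add]
        exact w.pos_add ha hb
      zero_mem' := by
        change w.Pos (Polynomial.aeval d.c 0)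
        rw [map_zero]
        exact Or.inl rfl
      smul_mem' := by
        intro a b hb
        change w.Pos (Polynomial.aeval d.c (a * b))
        rw [map_mul]
        exact w.pos_mul_left (reg_poly htr hc a) hb }
  have hmem : ∀ q, q ∈ P ↔ w.Pos (Polynomial.aeval d.c q) := fun q => Iff.rfl
  have hne : P ≠ ⊥ := by
    intro hP
    obtain ⟨f, hf0, hf1⟩ := w.surj
    obtain ⟨a, b, rfl⟩ := frac_c d f
    rw [div_ne_zero_iff] at hf0
    have ha : a ≠ 0 := by rintro rfl; simp at hf0
    have hb : b ≠ 0 := by rintro rfl; simp at hf0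
    have h0 : ∀ q : Polynomial (Fc d), q ≠ 0 → w.ord (Polynomial.aeval d.c q) = 0 := by
      intro q hq
      apply ord_eq_zero (reg_poly htr hc q) (aeval_ne hq)
      intro hp
      have h1 : q ∈ P := (hmem q).2 hp
      rw [hP] at h1
      exact hq (Ideal.mem_bot.1 h1)
    rw [w.ord_div hf0.1 hf0.2, h0 a ha, h0 b hb] at hf1
    norm_num at hf1
  have hprime : P.IsPrime := by
    refine ⟨?_, ?_⟩
    · intro h
      have h1 : (1 : Polynomial (Fc d)) ∈ P := by rw [h]; trivial
      rw [hmem, map_one] at h1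
      rcases h1 with h1 | h1
      · exact one_ne_zero h1
      · rw [w.ord_one] at h1
        exact lt_irrefl _ h1
    · intro a b hab
      by_contra hcon
      push Not at hcon
      obtain ⟨h1, h2⟩ := hcon
      rw [hmem] at h1 h2 hab
      rw [map_mul] at hab
      have ha0 : Polynomial.aeval d.c a ≠ 0 := fun h => h1 (Or.inl h)
      have hb0 : Polynomial.aeval d.c b ≠ 0 := fun h => h2 (Or.inl h)
      have e1 := ord_eq_zero (reg_poly htr hc a) ha0 h1
      have e2 := ord_eq_zero (reg_poly htr hc b) hb0 h2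
      rcases hab with hab | hab
      · exact mul_ne_zero ha0 hb0 hab
      · rw [w.map_mul _ _ ha0 hb0, e1, e2] at hab
        omega
  obtain ⟨π, hπP⟩ : ∃ π, P = Ideal.span {π} := (IsPrincipalIdealRing.principal P).principal
  have hdvd : ∀ q, w.Pos (Polynomial.aeval d.c q) ↔ π ∣ q := by
    intro q
    rw [← hmem, hπP, Ideal.mem_span_singleton]
  have hπ0 : π ≠ 0 := by
    rintro rfl
    apply hne
    rw [hπP]
    simp
  have hirr : Irreducible π := by
    rw [hπP] at hprime
    exact ((Ideal.span_singleton_prime hπ0).1 hprime).irreducible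
  refine ⟨π, hirr, ?_, hdvd⟩
  obtain ⟨f, hf0, hf1⟩ := w.surj
  obtain ⟨a, b, rfl⟩ := frac_c d f
  rw [div_ne_zero_iff] at hf0
  have ha : a ≠ 0 := by rintro rfl; simp at hf0
  have hb : b ≠ 0 := by rintro rfl; simp at hf0
  rw [w.ord_div hf0.1 hf0.2, ord_poly htr hc hirr (fun q => (hdvd q).1) ha,
    ord_poly htr hc hirr (fun q => (hdvd q).1) hb, ← sub_mul] at hf1
  have hpos : 0 < w.ord (Polynomial.aeval d.c π) := by
    have := (hdvd π).2 dvd_rfl
    exact this.resolve_left (aeval_ne hπ0)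
  rcases Int.eq_one_or_neg_one_of_mul_eq_one' hf1 with h | h
  · exact h.2
  · omega

theorem hor_same {d : Dat K} {w w' : DVal K} (htr : IsTriv d w) (htr' : IsTriv d w')
    (hc : 0 ≤ w.ord d.c) (hc' : 0 ≤ w'.ord d.c) {π : Polynomial (Fc d)} (hπ : Irreducible π)
    (h : w.Pos (Polynomial.aeval d.c π)) (h' : w'.Pos (Polynomial.aeval d.c π)) : Same w w' := by
  have key : ∀ w : DVal K, IsTriv d w → 0 ≤ w.ord d.c → w.Pos (Polynomial.aeval d.c π) →
      w.ord (Polynomial.aeval d.c π) = 1 ∧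
      ∀ q : Polynomial (Fc d), w.Pos (Polynomial.aeval d.c q) → π ∣ q := by
    intro w htr hc h
    obtain ⟨π₁, h1, h2, h3⟩ := hor htr hc
    have h4 : π₁ ∣ π := (h3 π).1 h
    have h5 : Associated π₁ π := h1.associated_of_dvd hπ h4
    refine ⟨?_, fun q hq => h5.symm.dvd.trans ((h3 q).1 hq)⟩
    obtain ⟨u, hu⟩ := h4
    have hunit : IsUnit u := (hπ.isUnit_or_isUnit hu).resolve_left h1.not_isUnit
    have h6 : ¬ π₁ ∣ u := fun h7 => h1.not_isUnit (isUnit_of_dvd_unit h7 hunit)
    have h8 : w.ord (Polynomial.aeval d.c u) = 0 :=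
      ord_eq_zero (reg_poly htr hc u) (aeval_ne hunit.ne_zero) (fun hp => h6 ((h3 u).1 hp))
    rw [hu, map_mul, w.map_mul _ _ (aeval_ne h1.ne_zero) (aeval_ne hunit.ne_zero), h2, h8,
      add_zero]
  obtain ⟨e1, e2⟩ := key w htr hc h
  obtain ⟨e1', e2'⟩ := key w' htr' hc' h'
  intro f hf0
  obtain ⟨a, b, rfl⟩ := frac_c d f
  rw [div_ne_zero_iff] at hf0
  have ha : a ≠ 0 := by rintro rfl; simp at hf0
  have hb : b ≠ 0 := by rintro rfl; simp at hf0
  rw [w.ord_div hf0.1 hf0.2, w'.ord_div hf0.1 hf0.2, ord_poly htr hc hπ e2 ha,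
    ord_poly htr hc hπ e2 hb, ord_poly htr' hc' hπ e2' ha, ord_poly htr' hc' hπ e2' hb, e1, e1']

theorem inf_same {d : Dat K} {w w' : DVal K} (htr : IsTriv d w) (htr' : IsTriv d w')
    (hc : w.ord d.c < 0) (hc' : w'.ord d.c < 0) : Same w w' := by
  have hc0 : d.c ≠ 0 := c_ne d
  have htrans : Transcendental (Fc d) d.c⁻¹ := by
    intro h
    have h1 := h.inv
    rw [inv_inv] at h1
    exact c_trans d h1
  have htop : IntermediateField.adjoin (Fc d) {d.c⁻¹} = ⊤ := by
    rw [eq_top_iff, ← top_eq d, IntermediateField.adjoin_simple_le_iff]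
    have h1 := (IntermediateField.adjoin (Fc d) {d.c⁻¹}).inv_mem
      (IntermediateField.mem_adjoin_simple_self (Fc d) d.c⁻¹)
    rwa [inv_inv] at h1
  obtain ⟨v, -, -, h3⟩ := gen_val d.c⁻¹ htrans htop
  have key : ∀ w : DVal K, IsTriv d w → w.ord d.c < 0 → ∀ f, f ≠ 0 → w.ord f = v.ord f := by
    intro w htr hc
    apply h3 w
    · intro k hk
      refine htr _ k.2 ?_
      intro h0
      exact hk (Subtype.ext h0)
    · rw [w.ord_inv hc0]
      omega
  intro f hf
  rw [key w htr hc f hf, key w' htr' hc' f hf]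

end Pool.Agent.TH444.FL_HOR
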