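import Mathlib
import Pool.Agent.TH63.RD.Def

set_option autoImplicit false

/-! From the rapid decay inequality to the frozen form. -/

namespace Pool.Agent.TH444.RD5

open Pool.Agent.TH63.RD
open scoped Pointwise

theorem mem_pow_norm {Q : Type} [Group Q] (π : FreeGroup (Fin 2) →* Q) (n : ℕ) (x : Q)
    (hx : x ∈ ((({π (FreeGroup.of 0), π (FreeGroup.of 1)} : Set Q)) ∪
      ({π (FreeGroup.of 0), π (FreeGroup.of 1)} : Set Q)⁻¹ ∪ {1}) ^ n) :
    ∃ w : FreeGroup (Fin 2), π w = x ∧ w.norm ≤ n := by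
  induction n generalizing x with
  | zero =>
    rw [pow_zero, Set.mem_one] at hx
    exact ⟨1, by rw [map_one, hx], by simp⟩
  | succ n ih =>
    rw [pow_succ, Set.mem_mul] at hx
    obtain ⟨y, hy, z, hz, rfl⟩ := hx
    obtain ⟨w, rfl, hw⟩ := ih y hy
    obtain ⟨v, rfl, hv⟩ : ∃ v : FreeGroup (Fin 2), π v = z ∧ v.norm ≤ 1 := by
      rcases hz with (hz | hz) | hz
      · rcases hz with rfl | hz
        · exact ⟨_, rfl, by simp⟩
        · rw [Set.mem_singleton_iff] at hz
          exact ⟨_, hz.symm, by simp⟩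
      · rw [Set.mem_inv] at hz
        rcases hz with hz | hz
        · exact ⟨(FreeGroup.of 0)⁻¹, by rw [map_inv, ← hz, inv_inv], by simp⟩
        · rw [Set.mem_singleton_iff] at hz
          exact ⟨(FreeGroup.of 1)⁻¹, by rw [map_inv, ← hz, inv_inv], by simp⟩
      · rw [Set.mem_singleton_iff] at hz
        exact ⟨1, by rw [map_one, hz], by simp⟩
    refine ⟨w * v, map_mul _ _ _, ?_⟩
    exact (FreeGroup.norm_mul_le w v).trans (add_le_add hw hv)

theorem final_form {Q : Type} [Group Q] (π : FreeGroup (Fin 2) →* Q) (hπ : Function.Surjective π)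
    (ℓ : Q → ℕ) (hℓ : ∀ g, ℓ (π g) ≤ g.norm) (E : ℝ)
    (hRD : ∀ r : ℕ, RDB ℓ r (E * (1 + r) ^ 7)) :
    ∃ S : Finset Q, Subgroup.closure (S : Set Q) = ⊤ ∧
        ∃ C s : ℝ, ∀ n : ℕ, ∀ f g : Q →₀ ℝ,
          (f.support : Set Q) ⊆ ((S : Set Q) ∪ (S : Set Q)⁻¹ ∪ {1}) ^ n →
            ∀ F : Finset Q,
              ∑ x ∈ F, (∑ y ∈ f.support, f y * g (y⁻¹ * x)) ^ 2 ≤
                C * (1 + (n : ℝ)) ^ s * (∑ y ∈ f.support, f y ^ 2) *
                  (∑ z ∈ g.support, g z ^ 2) := by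
  classical
  refine ⟨{π (FreeGroup.of 0), π (FreeGroup.of 1)}, ?_, E, 7, ?_⟩
  · have h1 : Subgroup.closure (Set.range (FreeGroup.of : Fin 2 → FreeGroup (Fin 2))) = ⊤ :=
      FreeGroup.closure_range_of _
    have h2 := congrArg (Subgroup.map π) h1
    rw [MonoidHom.map_closure, Subgroup.map_top_of_surjective π hπ, ← Set.range_comp] at h2
    rw [← h2]
    congr 1
    ext x
    simp only [Finset.coe_insert, Finset.coe_singleton, Set.mem_insert_iff, Set.mem_singleton_iff,
      Set.mem_range, Function.comp, Fin.exists_fin_two]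
    tauto
  · intro n f g hf F
    have h7 : (1 + (n : ℝ)) ^ (7 : ℝ) = (1 + (n : ℝ)) ^ 7 := by
      rw [← Real.rpow_natCast]; norm_num
    rw [h7]
    have hsupp : ∀ x ∈ (MonoidAlgebra.ofCoeff f : MonoidAlgebra ℝ Q).coeff.support, ℓ x ≤ n := by
      intro x hx
      have h1 : x ∈ (f.support : Set Q) := hx
      have h2 := hf h1
      rw [Finset.coe_insert, Finset.coe_singleton] at h2
      obtain ⟨w, rfl, hw⟩ := mem_pow_norm π n x h2
      exact (hℓ w).trans hw
    have h3 := hRD n (MonoidAlgebra.ofCoeff f) (MonoidAlgebra.ofCoeff g) hsupp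
    have hcoef : ∀ x, (MonoidAlgebra.ofCoeff f * MonoidAlgebra.ofCoeff g : MonoidAlgebra ℝ Q).coeff x
        = ∑ y ∈ f.support, f y * g (y⁻¹ * x) := by
      intro x
      rw [MonoidAlgebra.coeff_mul_apply_left]
      rfl
    have h4 : ∑ x ∈ F, (∑ y ∈ f.support, f y * g (y⁻¹ * x)) ^ 2 ≤
        TH63.RD.sq (MonoidAlgebra.ofCoeff f * MonoidAlgebra.ofCoeff g : MonoidAlgebra ℝ Q) := by
      unfold TH63.RD.sq
      set P := (MonoidAlgebra.ofCoeff f * MonoidAlgebra.ofCoeff g : MonoidAlgebra ℝ Q) with hP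
      calc ∑ x ∈ F, (∑ y ∈ f.support, f y * g (y⁻¹ * x)) ^ 2
          = ∑ x ∈ F, P.coeff x ^ 2 := by
            apply Finset.sum_congr rfl
            intro x _
            rw [hcoef]
        _ ≤ ∑ x ∈ F ∪ P.coeff.support, P.coeff x ^ 2 :=
            Finset.sum_le_sum_of_subset_of_nonneg Finset.subset_union_left
              (fun _ _ _ => sq_nonneg _)
        _ = ∑ x ∈ P.coeff.support, P.coeff x ^ 2 := by
            symm
            apply Finset.sum_subset Finset.subset_union_right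
            intro x _ hx
            rw [Finsupp.notMem_support_iff.1 hx]
            norm_num
    exact h4.trans h3

end Pool.Agent.TH444.RD5
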