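import Mathlib
import Pool.Agent.TH444.FC.Single

set_option autoImplicit false

/-! Labelling a sequence of graphs of growing girth. -/

namespace TH444.FC

open Finset
open Pool.Agent.TH950.FC (NBWalk word)

lemma exists_seq {α : ℕ → Type} (R : ∀ i, (∀ k, k < i → α k) → α i → Prop)
    (h : ∀ i f, ∃ x, R i f x) : ∃ F : ∀ i, α i, ∀ i, R i (fun k _ => F k) (F i) := by
  choose s hs using h
  let F : ∀ i, α i := WellFounded.fix (r := (· < ·)) (C := α) Nat.lt_wfRel.wf (fun i f => s i f)
  refine ⟨F, fun i => ?_⟩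
  have h1 : F i = s i (fun k _ => F k) := WellFounded.fix_eq _ _ _
  rw [h1]
  exact hs i _

lemma ed_sub_zero {V : Type} (p : List V) (r : ℕ) (h : 0 + r < p.length) :
    ed (sub p 0 r) = (ed p).take r := by
  apply List.ext_getElem
  · rw [length_ed_sub h, List.length_take, length_ed]
    omega
  · intro k hk hk'
    rw [length_ed_sub h] at hk
    rw [getElem_ed_sub h k hk, List.getElem_take]
    simp

lemma head?_sub_zero {V : Type} (p : List V) (r : ℕ) (h : 0 + r < p.length) :
    (sub p 0 r).head? = p.head? := by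
  rw [head?_sub h, List.head?_eq_getElem?, List.getElem?_eq_getElem (by omega)]

lemma length_eq {V V' C : Type} {c : Sym2 V → C} {c' : Sym2 V' → C} {p : List V} {q : List V'}
    (h : (ed p).map c = (ed q).map c') (hp : p ≠ []) (hq : q ≠ []) : p.length = q.length := by
  have h1 := congrArg List.length h
  rw [List.length_map, List.length_map, length_ed, length_ed] at h1
  have h2 := List.length_pos_iff.2 hp
  have h3 := List.length_pos_iff.2 hq
  omega

lemma exists_b : ∃ b : ℕ, 0 < b ∧ (∀ l i : ℕ, 100 + i < l →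
      ((l + 1) * 400 ^ l) * (4 * 400 ^ (100 * l) * 400 ^ l) * b * 2 ^ (i + 1) ≤ b ^ l) ∧
      (∀ L g d : ℕ, 50 ≤ L → g ≤ 200 * L + 200 → L ≤ 3 * d →
      (2 * (((L + 1) * 400 ^ L) * (4 * 400 ^ g * 400 ^ L))) * b ≤ b ^ d) := by
  obtain ⟨b, hb⟩ : ∃ b : ℕ, 400 ^ 2000 = b := ⟨_, rfl⟩
  refine ⟨b, ?_, ?_, ?_⟩
  · rw [← hb]; exact Nat.pow_pos (by norm_num)
  · intro l i h
    rw [← hb]; exact numB l i h
  · intro L g d h1 h2 h3
    rw [← hb]; exact numC L g d h1 h2 h3

/-- Labelling of a sequence of graphs of growing girth with finitely many colours such that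
long words occur at most once. -/
theorem exists_labelling
    (huniq : ∀ (k : ℕ) (G : SimpleGraph (Fin k)) (g : ℕ),
      (∀ (v : Fin k) (c : G.Walk v v), c.IsCycle → g ≤ c.length) →
      ∀ p q : List (Fin k), NBWalk G p → NBWalk G q → p.head? = q.head? →
        p.getLast? = q.getLast? → (p.length - 1) + (q.length - 1) < g → p = q) :
    ∃ m : ℕ, ∀ (g : ℕ → ℕ) (n : ℕ → ℕ) (G : ∀ i, SimpleGraph (Fin (n i))),
    (∀ i, 10000 ≤ g i) → (∀ i, g i + 10000 ≤ g (i + 1)) → (∀ i, n i ≤ 4 * 400 ^ g i) →
    (∀ i v, ((G i).neighborSet v).ncard ≤ 400) →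
    (∀ i (v : Fin (n i)) (c : (G i).Walk v v), c.IsCycle → g i ≤ c.length) →
    ∃ c : ∀ i, Sym2 (Fin (n i)) → Fin m,
      (∀ i (u v w : Fin (n i)), (G i).Adj u v → (G i).Adj u w → v ≠ w →
        c i s(u, v) ≠ c i s(u, w)) ∧
      (∀ i (p q : List (Fin (n i))), NBWalk (G i) p → NBWalk (G i) q →
        word (c i) p = word (c i) q → p.head? ≠ q.head? → 100 * (p.length - 1) ≤ g i) ∧
      (∀ i j, i ≠ j → ∀ (p : List (Fin (n i))) (q : List (Fin (n j))), NBWalk (G i) p →
        NBWalk (G j) q → word (c i) p = word (c j) q → 100 * (p.length - 1) ≤ g i) := by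
  classical
  obtain ⟨b, hb0, hbB, hbC⟩ := exists_b
  refine ⟨b + 1602, ?_⟩
  intro g n G hg hgs hn hdeg hgirth
  have hun : ∀ i, Hun (G i) (g i) := fun i => huniq (n i) (G i) (g i) (hgirth i)
  have hΔ : ∀ i v, (univ.filter ((G i).Adj v)).card ≤ 400 := by
    intro i v
    have h1 := hdeg i v
    have h2 : (G i).neighborSet v = ((univ.filter ((G i).Adj v) : Finset (Fin (n i))) :
        Set (Fin (n i))) := by
      ext w; simp
    rw [h2, Set.ncard_coe_finset] at h1
    exact h1
  have hg0 : ∀ i, 10000 + 100 * i ≤ g i := by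
    intro i
    induction i with
    | zero => have := hg 0; linarith
    | succ i ih => have := hgs i; linarith
  have hgm : StrictMono g := strictMono_nat_of_lt_succ (fun i => by have := hgs i; omega)
  let l : ℕ → ℕ := fun i => g i / 100 + 1
  let FF : ∀ i, (Sym2 (Fin (n i)) → Fin (b + 1602)) → Finset (List (Fin (b + 1602))) :=
    fun i c => ((W (G i) (l i)).filter (NBWalk (G i))).image (fun p => (ed p).map c)
  have hFF : ∀ i c, (FF i c).card ≤ 4 * 400 ^ (100 * l i) * 400 ^ (l i) := by
    intro i c
    refine Finset.card_image_le.trans ((Finset.card_le_card (Finset.filter_subset _ _)).trans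
      ((card_W (G i) (hΔ i) (l i)).trans ?_))
    apply Nat.mul_le_mul_right
    rw [Fintype.card_fin]
    refine (hn i).trans ?_
    apply Nat.mul_le_mul_left
    apply Nat.pow_le_pow_right (by norm_num)
    change g i ≤ 100 * (g i / 100 + 1)
    omega
  have hmemFF : ∀ i c p, NBWalk (G i) p → p.length = l i + 1 → (ed p).map c ∈ FF i c := by
    intro i c p hp hpl
    refine mem_image.2 ⟨p, mem_filter.2 ⟨(mem_W _).2 ⟨hpl, ?_⟩, hp⟩, rfl⟩
    rw [List.isChain_iff_getElem]
    exact fun k hk => hp.2.1 k hk
  obtain ⟨c, hc⟩ := exists_seq (α := fun i => Sym2 (Fin (n i)) → Fin (b + 1602))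
    (fun j f x =>
      (∀ u v w, (G j).Adj u v → (G j).Adj u w → v ≠ w → x s(u, v) ≠ x s(u, w)) ∧
      (∀ i (hi : i < j), ∀ p, NBWalk (G j) p → p.length = l i + 1 →
        (ed p).map x ∉ FF i (f i hi)) ∧
      (∀ p q, NBWalk (G j) p → NBWalk (G j) q → p.length = g j / 100 / 2 + 1 →
        q.length = g j / 100 / 2 + 1 → (∀ k < g j / 100 / 2, (ed p)[k]? ≠ (ed q)[k]?) →
        (ed p).map x ≠ (ed q).map x))
    (by
      intro j f
      obtain ⟨x, h1, h2, h3⟩ := exists_single (G j) (b + 1602) b (g j) hb0 hbB hbC rfl (hg j)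
        (by rw [Fintype.card_fin]; exact hn j) (hΔ j) (hun j) j l
        (by intro i _; have := hg0 i; change 100 + i < g i / 100 + 1; omega)
        (by
          intro i hi
          have h1 := hgm hi
          have h2 := hg i
          change g i / 100 + 1 < g j
          omega)
        (fun i => if hi : i < j then FF i (f i hi) else ∅)
        (by
          intro i hi
          simp only [hi, dif_pos]
          exact hFF i _)
      refine ⟨x, h1, ?_, h3⟩
      intro i hi p hp hpl
      have := h2 i hi p hp hpl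
      simpa only [hi, dif_pos] using this)
  refine ⟨c, fun i => (hc i).1, ?_, ?_⟩
  · intro i p q hp hq hw hh
    by_contra hcon
    rw [word_eq, word_eq] at hw
    have hlen := length_eq hw hp.1 hq.1
    have hli : 0 + l i < p.length := by
      change 0 + (g i / 100 + 1) < p.length
      omega
    have hli' : 0 + l i < q.length := by rw [← hlen]; exact hli
    obtain ⟨p', q', h1, h2, h3, h4, h5, h6⟩ := exists_pair (hun i) (l := l i)
      (by have := hg i; change 2 * (g i / 100 + 1) < g i; omega)
      (nb_sub hp hli) (nb_sub hq hli') (length_sub hli) (length_sub hli')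
      (fun u v w => (hc i).1 u v w)
      (by rw [ed_sub_zero p _ hli, ed_sub_zero q _ hli', List.map_take, List.map_take, hw])
      (by rw [head?_sub_zero p _ hli, head?_sub_zero q _ hli']; exact hh)
      (g i / 100 / 2) (by change 2 * (g i / 100 / 2) + 1 ≤ g i / 100 + 1; omega)
    exact (hc i).2.2 p' q' h1 h2 h3 h4 h6 h5
  · intro i j hij p q hp hq hw
    by_contra hcon
    rw [word_eq, word_eq] at hw
    have hlen := length_eq hw hp.1 hq.1
    rcases lt_or_gt_of_ne hij with h | h
    · have hli : 0 + l i < p.length := by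
        change 0 + (g i / 100 + 1) < p.length
        omega
      have hli' : 0 + l i < q.length := by rw [← hlen]; exact hli
      apply (hc j).2.1 i h (sub q 0 (l i)) (nb_sub hq hli') (length_sub hli')
      have h1 := hmemFF i (c i) (sub p 0 (l i)) (nb_sub hp hli) (length_sub hli)
      rw [ed_sub_zero p _ hli, List.map_take, hw] at h1
      rw [ed_sub_zero q _ hli', List.map_take]
      exact h1
    · have hgij := hgm h
      have hli : 0 + l j < p.length := by
        change 0 + (g j / 100 + 1) < p.length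
        omega
      have hli' : 0 + l j < q.length := by rw [← hlen]; exact hli
      apply (hc i).2.1 j h (sub p 0 (l j)) (nb_sub hp hli) (length_sub hli)
      have h1 := hmemFF j (c j) (sub q 0 (l j)) (nb_sub hq hli') (length_sub hli')
      rw [ed_sub_zero q _ hli', List.map_take, ← hw] at h1
      rw [ed_sub_zero p _ hli, List.map_take]
      exact h1

end TH444.FC
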