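import Mathlib
import Pool.Agent.TH149.WR.Key

set_option autoImplicit false

/-! Counting cells of positive measure. -/

namespace Pool.Agent.TH444.J1077

open Finset MeasureTheory Filter Topology
open Pool.Agent.TH149.WR

theorem cells : S_cells := by
  classical
  intro m h2 A hA s e hse hconst hvol
  by_contra hcon
  push Not at hcon
  let P : ℕ → Finset ℕ := fun ℓ =>
    (range (Mm m ℓ)).filter (fun a => 0 < volume (A ∩ {x | dig m ℓ x = a}))
  have hmemP : ∀ ℓ a, a ∈ P ℓ ↔ a < Mm m ℓ ∧ 0 < volume (A ∩ {x | dig m ℓ x = a}) := by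
    intro ℓ a
    simp only [P, mem_filter, mem_range]
  have hstep : ∀ ℓ, s ≤ ℓ → ℓ < e → (P (ℓ + 1)).card ≤ (m ℓ - 1) * (P ℓ).card := by
    intro ℓ hs he
    have hpos : 0 < m ℓ := by have := h2 ℓ; omega
    have himg : (P (ℓ + 1)).image (fun c => c / m ℓ) ⊆ P ℓ := by
      intro a ha
      obtain ⟨c, hc, rfl⟩ := mem_image.1 ha
      obtain ⟨h3, h4⟩ := (hmemP _ _).1 hc
      rw [hmemP]
      refine ⟨?_, ?_⟩
      · rw [Nat.div_lt_iff_lt_mul hpos]
        exact h3
      · refine lt_of_lt_of_le h4 (measure_mono ?_)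
        rintro x ⟨hxA, hx⟩
        refine ⟨hxA, ?_⟩
        change dig m ℓ x = c / m ℓ
        rw [← dig_succ h2 ℓ x]
        congr 1
    refine (Finset.card_le_mul_card_image (f := fun c => c / m ℓ) (P (ℓ + 1)) (m ℓ - 1) ?_).trans
      (Nat.mul_le_mul_left _ (Finset.card_le_card himg))
    intro a ha
    have ha' := ((hmemP _ _).1 (himg ha)).1
    obtain ⟨t₀, ht₀, hnull⟩ := hcon ℓ hs he a ha'
    have hsub : (P (ℓ + 1)).filter (fun c => c / m ℓ = a) ⊆
        ((range (m ℓ)).erase t₀).image (fun t => a * m ℓ + t) := by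
      intro c hc
      obtain ⟨h3, h4⟩ := mem_filter.1 hc
      have h5 : c = a * m ℓ + c % m ℓ := by
        rw [← h4, mul_comm]
        exact (Nat.div_add_mod c (m ℓ)).symm
      refine mem_image.2 ⟨c % m ℓ, mem_erase.2 ⟨?_, mem_range.2 (Nat.mod_lt _ hpos)⟩, h5.symm⟩
      intro h6
      rw [h6] at h5
      have h7 := ((hmemP _ _).1 h3).2
      rw [h5] at h7
      exact absurd h7 (not_lt.2 hnull)
    refine (Finset.card_le_card hsub).trans (Finset.card_image_le.trans ?_)
    rw [Finset.card_erase_of_mem (mem_range.2 ht₀), card_range]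
  have hN : ∀ e', s ≤ e' → e' ≤ e → (P e').card ≤ (m s - 1) ^ (e' - s) * Mm m s ∧
      Mm m e' = m s ^ (e' - s) * Mm m s := by
    intro e' hs
    induction e', hs using Nat.le_induction with
    | base =>
      intro _
      rw [Nat.sub_self, pow_zero, pow_zero, one_mul]
      refine ⟨?_, rfl⟩
      refine (Finset.card_filter_le _ _).trans ?_
      rw [card_range]
    | succ n hn ih =>
      intro hle
      obtain ⟨h3, h4⟩ := ih (by omega)
      have h5 := hstep n hn (by omega)
      have h6 := hconst n hn (by omega)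
      have h7 : n + 1 - s = (n - s) + 1 := by omega
      rw [h6] at h5
      rw [h7, pow_succ, pow_succ]
      refine ⟨?_, ?_⟩
      · refine h5.trans ((Nat.mul_le_mul_left _ h3).trans (le_of_eq ?_))
        ring
      · change Mm m n * m n = _
        rw [h4, h6]
        ring
  obtain ⟨hNe, hMe⟩ := hN e hse le_rfl
  have hMpos : (0 : ℝ) < Mm m e := by exact_mod_cast Mm_pos h2 e
  have hMspos : (0 : ℝ) < Mm m s := by exact_mod_cast Mm_pos h2 s
  have hms : (0 : ℝ) < m s := by
    have := h2 s
    exact_mod_cast (by omega : 0 < m s)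
  -- the measure
  have hcover : A ⊆ {(1 : unitInterval)} ∪ ⋃ a ∈ range (Mm m e), (A ∩ {x | dig m e x = a}) := by
    intro x hx
    by_cases h1 : x = 1
    · exact Or.inl h1
    · exact Or.inr (Set.mem_biUnion (Finset.mem_coe.2 (mem_range.2 (dig_lt h2 e x h1))) ⟨hx, rfl⟩)
  have hle : volume A ≤ ((P e).card : ENNReal) * ENNReal.ofReal (1 / (Mm m e : ℝ)) := by
    calc volume A ≤ volume ({(1 : unitInterval)} ∪ ⋃ a ∈ range (Mm m e),
          (A ∩ {x | dig m e x = a})) := measure_mono hcover
      _ ≤ volume ({(1 : unitInterval)} : Set unitInterval) + volume (⋃ a ∈ range (Mm m e),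
          (A ∩ {x | dig m e x = a})) := measure_union_le _ _
      _ = volume (⋃ a ∈ range (Mm m e), (A ∩ {x | dig m e x = a})) := by
          rw [measure_singleton, zero_add]
      _ ≤ ∑ a ∈ range (Mm m e), volume (A ∩ {x | dig m e x = a}) :=
          measure_biUnion_finset_le _ _
      _ = ∑ a ∈ P e, volume (A ∩ {x | dig m e x = a}) := by
          symm
          apply Finset.sum_subset (Finset.filter_subset _ _)
          intro a ha ha'
          by_contra h0
          exact ha' (mem_filter.2 ⟨ha, pos_iff_ne_zero.2 h0⟩)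
      _ ≤ ∑ _a ∈ P e, ENNReal.ofReal (1 / (Mm m e : ℝ)) := by
          apply Finset.sum_le_sum
          intro a ha
          rw [← volume_cell h2 e a ((hmemP _ _).1 ha).1]
          exact measure_mono Set.inter_subset_right
      _ = ((P e).card : ENNReal) * ENNReal.ofReal (1 / (Mm m e : ℝ)) := by
          rw [Finset.sum_const, nsmul_eq_mul]
  have hle2 : (volume A).toReal ≤ (P e).card * (1 / (Mm m e : ℝ)) := by
    have h3 := ENNReal.toReal_mono (by finiteness) hle
    rw [ENNReal.toReal_mul, ENNReal.toReal_natCast, ENNReal.toReal_ofReal (by positivity)] at h3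
    exact h3
  have hle3 : (P e).card * (1 / (Mm m e : ℝ)) ≤ (1 - 1 / (m s : ℝ)) ^ (e - s) := by
    rw [mul_one_div, div_le_iff₀ hMpos, hMe]
    have h3 : ((P e).card : ℝ) ≤ ((m s : ℝ) - 1) ^ (e - s) * Mm m s := by
      have h4 : ((P e).card : ℝ) ≤ (((m s - 1) ^ (e - s) * Mm m s : ℕ) : ℝ) := by
        exact_mod_cast hNe
      rw [Nat.cast_mul, Nat.cast_pow, Nat.cast_sub (by have := h2 s; omega), Nat.cast_one] at h4
      exact h4
    refine h3.trans (le_of_eq ?_)
    push_cast
    rw [← mul_assoc, ← mul_pow]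
    congr 2
    field_simp
  exact absurd (hle2.trans hle3) (not_le.2 hvol)

end Pool.Agent.TH444.J1077
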