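import Mathlib
import Pool.Agent.TH149.WR.Key

set_option autoImplicit false

/-! A cell which is met fully gives a positive density. -/

namespace Pool.Agent.TH444.J1078

open Finset MeasureTheory Filter Topology
open Pool.Agent.TH149.WR

theorem meas_fac (W : Graphon) {h : ℕ} (H : SimpleGraph (Fin h)) : Measurable (W.fac H) := by
  classical
  unfold Graphon.fac
  refine Finset.measurable_prod _ (fun i _ => Finset.measurable_prod _ (fun j _ => ?_))
  have h0 : Measurable (fun x : Fin h → unitInterval => (x i, x j)) :=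
    (measurable_pi_apply i).prodMk (measurable_pi_apply j)
  have h1 : Measurable (fun x : Fin h → unitInterval => W.W (x i) (x j)) := W.meas.comp h0
  split_ifs
  · exact h1
  · exact measurable_const.sub h1

theorem fac_mem (W : Graphon) {h : ℕ} (H : SimpleGraph (Fin h)) (x : Fin h → unitInterval) :
    0 ≤ W.fac H x ∧ W.fac H x ≤ 1 := by
  classical
  unfold Graphon.fac
  have h1 : ∀ i j : Fin h, 0 ≤ (if H.Adj i j then W.W (x i) (x j) else 1 - W.W (x i) (x j)) ∧
      (if H.Adj i j then W.W (x i) (x j) else 1 - W.W (x i) (x j)) ≤ 1 := by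
    intro i j
    have h2 := W.mem (x i) (x j)
    split_ifs
    · exact h2
    · exact ⟨by linarith [h2.2], by linarith [h2.1]⟩
  constructor
  · exact Finset.prod_nonneg (fun i _ => Finset.prod_nonneg (fun j _ => (h1 i j).1))
  · exact Finset.prod_le_one (fun i _ => Finset.prod_nonneg (fun j _ => (h1 i j).1))
      (fun i _ => Finset.prod_le_one (fun j _ => (h1 i j).1) (fun j _ => (h1 i j).2))

theorem pos : S_pos := by
  classical
  intro m Q h2 A hA ℓ a ha hfull
  set h := m ℓ with hh
  let C : Fin h → Set unitInterval := fun t => A ∩ {x | dig m (ℓ + 1) x = a * m ℓ + t}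
  have hCpos : ∀ t, 0 < volume (C t) := fun t => hfull t t.2
  have hCmeas : ∀ t, MeasurableSet (C t) := fun t => hA.inter (measurableSet_cell (ℓ + 1) _)
  set B : Set (Fin h → unitInterval) := Set.univ.pi C with hB
  have hBvol : 0 < volume B := by
    rw [hB, volume_pi_pi]
    exact pos_iff_ne_zero.2 (Finset.prod_ne_zero_iff.2 (fun t _ => (hCpos t).ne'))
  have hBmeas : MeasurableSet B := MeasurableSet.univ_pi hCmeas
  have hBsub : B ⊆ Set.univ.pi (fun _ : Fin h => A) := Set.pi_mono (fun t _ => Set.inter_subset_left)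
  have hfac : ∀ x ∈ B, (Wq m Q).fac (Q ℓ) x = 1 := by
    intro x hx
    unfold Graphon.fac
    apply Finset.prod_eq_one
    intro i _
    apply Finset.prod_eq_one
    intro j hj
    have hij : i ≠ j := (Finset.mem_Ioi.1 hj).ne
    have hxi : dig m (ℓ + 1) (x i) = a * m ℓ + i := (hx i (Set.mem_univ _)).2
    have hxj : dig m (ℓ + 1) (x j) = a * m ℓ + j := (hx j (Set.mem_univ _)).2
    have hkey := key_succ h2 Q (x i) (x j) ℓ a i j ha hxi hxj hij
    have hW : (Wq m Q).W (x i) (x j) = if WAdj m Q (x i) (x j) then 1 else 0 := by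
      unfold Wq
      congr
    rw [hW]
    by_cases hadj : (Q ℓ).Adj i j
    · rw [if_pos hadj, if_pos (hkey.2 hadj)]
    · rw [if_neg hadj, if_neg (fun h' => hadj (hkey.1 h'))]
      norm_num
  have hint : IntegrableOn ((Wq m Q).fac (Q ℓ)) (Set.univ.pi (fun _ : Fin h => A)) volume := by
    refine Integrable.of_bound (meas_fac _ _).aestronglyMeasurable 1 (ae_of_all _ (fun x => ?_))
    have h3 := fac_mem (Wq m Q) (Q ℓ) x
    rw [Real.norm_eq_abs, abs_of_nonneg h3.1]
    exact h3.2
  have hle : ∫ x in B, (Wq m Q).fac (Q ℓ) x ≤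
      ∫ x in Set.univ.pi (fun _ : Fin h => A), (Wq m Q).fac (Q ℓ) x := by
    apply setIntegral_mono_set hint
    · exact ae_of_all _ (fun x => (fac_mem _ _ x).1)
    · exact hBsub.eventuallyLE
  have hBint : ∫ x in B, (Wq m Q).fac (Q ℓ) x = (volume B).toReal := by
    rw [setIntegral_congr_fun hBmeas (g := fun _ => (1 : ℝ)) hfac]
    simp [Measure.real]
  have hBreal : 0 < (volume B).toReal :=
    ENNReal.toReal_pos hBvol.ne' (measure_ne_top _ _)
  have hAvol : 0 < (volume A).toReal := by
    apply ENNReal.toReal_pos _ (measure_ne_top _ _)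
    have h0 : 0 < h := by have := h2 ℓ; omega
    exact (lt_of_lt_of_le (hCpos ⟨0, h0⟩) (measure_mono Set.inter_subset_left)).ne'
  unfold Graphon.dens
  apply div_pos _ (pow_pos hAvol _)
  rw [hBint] at hle
  exact hBreal.trans_le hle

end Pool.Agent.TH444.J1078
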