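import Pool.Agent.TH281.HB.Defs

/-!
Job 1155 (HB-G): gluing lemma for Hölder maps over disjoint open sets.
-/

namespace Pool.Agent.TH444.J1155

open Pool.Agent.TH281.HB

/-- A segment from one open set to a disjoint one leaves both. -/
theorem exists_gap {E : Type*} [NormedAddCommGroup E] [NormedSpace ℝ E] (U W : Set E)
    (hU : IsOpen U) (hW : IsOpen W) (hd : Disjoint U W) (v v' : E) (hv : v ∈ U) (hv' : v' ∈ W) :
    ∃ b ∈ segment ℝ v v', b ∉ U ∧ b ∉ W := by
  by_contra hcon
  push Not at hcon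
  have hpre : IsPreconnected (segment ℝ v v') := (convex_segment v v').isPreconnected
  have hsub : segment ℝ v v' ⊆ U ∪ W := by
    intro b hb
    by_cases hbU : b ∈ U
    · exact Or.inl hbU
    · exact Or.inr (hcon b hb hbU)
  obtain ⟨z, -, hzU, hzW⟩ := hpre U W hU hW hsub ⟨v, left_mem_segment ℝ v v', hv⟩
    ⟨v', right_mem_segment ℝ v v', hv'⟩
  exact Set.disjoint_left.mp hd hzU hzW

theorem seg_norm {E : Type*} [NormedAddCommGroup E] [NormedSpace ℝ E] (v v' b : E)
    (hb : b ∈ segment ℝ v v') : ‖v - b‖ ≤ ‖v - v'‖ ∧ ‖b - v'‖ ≤ ‖v - v'‖ := by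
  obtain ⟨s, t, hs, ht, hst, rfl⟩ := hb
  have h1 : v - (s • v + t • v') = t • (v - v') := by
    have : s = 1 - t := by linarith
    rw [this]; module
  have h2 : (s • v + t • v') - v' = s • (v - v') := by
    have : t = 1 - s := by linarith
    rw [this]; module
  rw [h1, h2, norm_smul, norm_smul, Real.norm_of_nonneg hs, Real.norm_of_nonneg ht]
  have hn := norm_nonneg (v - v')
  constructor <;> nlinarith

theorem glue {E F : Type*} [NormedAddCommGroup E] [NormedSpace ℝ E] [NormedAddCommGroup F]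
    (V : ℕ → Set E) (hV : ∀ k, IsOpen (V k)) (hd : ∀ k l, k ≠ l → Disjoint (V k) (V l))
    (S : ℕ → E → F) (base : E → F) (hS : ∀ k v, v ∉ V k → S k v = base v)
    (C α : ℝ) (hC : 0 ≤ C) (hα : 0 < α)
    (hH : ∀ k v v', ‖S k v - S k v'‖ ≤ C * ‖v - v'‖ ^ α) (T : E → F)
    (hT : ∀ k v, v ∈ V k → T v = S k v) (hT' : ∀ v, (∀ k, v ∉ V k) → T v = base v) :
    ∀ v v', ‖T v - T v'‖ ≤ 2 * C * ‖v - v'‖ ^ α := by
  intro v v'
  have hpos : 0 ≤ C * ‖v - v'‖ ^ α := mul_nonneg hC (Real.rpow_nonneg (norm_nonneg _) _)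
  -- `T` agrees with `S k` at a point outside all the other sets
  have key : ∀ k w, (∀ l, l ≠ k → w ∉ V l) → T w = S k w := by
    intro k w hw
    by_cases hk : w ∈ V k
    · exact hT k w hk
    · rw [hS k w hk]
      apply hT'
      intro l
      by_cases hl : l = k
      · rw [hl]; exact hk
      · exact hw l hl
  have huniq : ∀ k w, w ∈ V k → ∀ l, l ≠ k → w ∉ V l := by
    intro k w hw l hl hwl
    exact Set.disjoint_left.mp (hd l k hl) hwl hw
  by_cases hv : ∃ k, v ∈ V k
  · obtain ⟨k, hk⟩ := hv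
    by_cases hv' : ∀ l, l ≠ k → v' ∉ V l
    · rw [hT k v hk, key k v' hv']
      have := hH k v v'
      linarith
    · push Not at hv'
      obtain ⟨l, hlk, hl⟩ := hv'
      obtain ⟨b, hb, hbk, hbl⟩ := exists_gap (V k) (V l) (hV k) (hV l) (hd k l (Ne.symm hlk))
        v v' hk hl
      obtain ⟨hn1, hn2⟩ := seg_norm v v' b hb
      rw [hT k v hk, hT l v' hl]
      have e1 : S k v - S l v' = (S k v - S k b) + (S l b - S l v') := by
        rw [hS k b hbk, hS l b hbl]; abel
      rw [e1]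
      have h1 := hH k v b
      have h2 := hH l b v'
      have h3 : ‖v - b‖ ^ α ≤ ‖v - v'‖ ^ α := Real.rpow_le_rpow (norm_nonneg _) hn1 hα.le
      have h4 : ‖b - v'‖ ^ α ≤ ‖v - v'‖ ^ α := Real.rpow_le_rpow (norm_nonneg _) hn2 hα.le
      have h5 := norm_add_le (S k v - S k b) (S l b - S l v')
      have h6 := mul_le_mul_of_nonneg_left h3 hC
      have h7 := mul_le_mul_of_nonneg_left h4 hC
      linarith
  · push Not at hv
    by_cases hv' : ∃ k, v' ∈ V k
    · obtain ⟨k, hk⟩ := hv'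
      rw [hT k v' hk, key k v (fun l _ => hv l)]
      have := hH k v v'
      linarith
    · push Not at hv'
      rw [key 0 v (fun l _ => hv l), key 0 v' (fun l _ => hv' l)]
      have := hH 0 v v'
      linarith

end Pool.Agent.TH444.J1155
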