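import Mathlib
import Pool.Agent.TH708.Ari.Defs

set_option autoImplicit false

/-! A product over a matching has full rank. -/

namespace Pool.Agent.TH444.J1115

open Finset
open Pool.Agent.TH708.Ari

/-- the two by two matrix -/
def mm {K : Type} [Field K] (c : K) (b b' : Bool) : K :=
  (if b = true ∧ b' = true then 1 else 0) + c

/-- its inverse -/
def mi {K : Type} [Field K] (c : K) (b b' : Bool) : K :=
  c⁻¹ * (if b = true then (if b' = true then c else -c) else (if b' = true then -c else 1 + c))

lemma mm_mi {K : Type} [Field K] (c : K) (hc : c ≠ 0) (b b' : Bool) :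
    ∑ x : Bool, mm c b x * mi c x b' = if b = b' then 1 else 0 := by
  rw [Fintype.sum_bool]
  cases b <;> cases b' <;> simp [mm, mi] <;> field_simp <;> ring

theorem full : T_full := by
  classical
  intro V K _ _ _ Y σ hσ hinj c e hc he F hF r hr
  obtain ⟨ι, _, a, b, hcard, ha, hb, hab⟩ := hr
  let U := Y → Bool
  let pt : U → U → V → Bool := fun u v z =>
    if h : z ∈ Y then u ⟨z, h⟩ else if h' : ∃ y : Y, σ y = z then v h'.choose else false
  have hpt1 : ∀ u v (y : Y), pt u v y = u y := by
    intro u v y
    simp only [pt, y.2, dif_pos]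
  have hpt2 : ∀ u v (y : Y), pt u v (σ y) = v y := by
    intro u v y
    have h1 : σ y ∉ Y := hσ y y.2
    have h2 : ∃ y' : Y, σ y' = σ y := ⟨y, rfl⟩
    simp only [pt, h1, dif_neg, not_false_eq_true, h2, dif_pos]
    congr 1
    exact Subtype.ext (hinj h2.choose.2 y.2 h2.choose_spec)
  let N : Matrix U U K := Matrix.of fun u v => ∏ y, mm c (u y) (v y)
  let N' : Matrix U U K := Matrix.of fun u v => ∏ y, mi c (u y) (v y)
  have hNN' : N * N' = 1 := by
    ext u w
    rw [Matrix.mul_apply]
    have h1 : ∀ v : U, N u v * N' v w = ∏ y, (mm c (u y) (v y) * mi c (v y) (w y)) := by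
      intro v
      change (∏ y, mm c (u y) (v y)) * (∏ y, mi c (v y) (w y)) = _
      rw [Finset.prod_mul_distrib]
    rw [Finset.sum_congr rfl (fun v _ => h1 v)]
    have h2 := Finset.prod_univ_sum (fun _ : Y => (univ : Finset Bool))
      (fun y x => mm c (u y) x * mi c x (w y))
    rw [Fintype.piFinset_univ] at h2
    rw [← h2]
    rw [Finset.prod_congr rfl (fun y _ => mm_mi c hc (u y) (w y))]
    rw [Matrix.one_apply]
    by_cases huw : u = w
    · subst huw; simp
    · rw [if_neg huw]
      obtain ⟨y, hy⟩ := Function.ne_iff.1 huw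
      apply Finset.prod_eq_zero (Finset.mem_univ y)
      rw [if_neg hy]
  let A : Matrix U ι K := Matrix.of fun u i => a i (pt u (fun _ => false))
  let B : Matrix ι U K := Matrix.of fun i v => b i (pt (fun _ => false) v)
  have hAB : A * B = e • N := by
    ext u v
    rw [Matrix.mul_apply, Matrix.smul_apply, smul_eq_mul]
    have h1 : F (pt u v) = N u v * e := by
      rw [hF]
      congr 1
      change _ = ∏ y, mm c (u y) (v y)
      rw [← Finset.prod_coe_sort]
      apply Finset.prod_congr rfl
      intro y _
      rw [hpt1, hpt2]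
      rfl
    rw [mul_comm, ← h1, hab]
    apply Finset.sum_congr rfl
    intro i _
    change a i (pt u (fun _ => false)) * b i (pt (fun _ => false) v) = _
    congr 1
    · apply ha i
      intro z hz
      have e1 : pt u (fun _ => false) z = u ⟨z, hz⟩ := hpt1 u (fun _ => false) ⟨z, hz⟩
      have e2 : pt u v z = u ⟨z, hz⟩ := hpt1 u v ⟨z, hz⟩
      rw [e1, e2]
    · apply hb i
      intro z hz
      have hz' : z ∉ Y := (mem_sdiff.1 hz).2
      simp only [pt, hz', dif_neg, not_false_eq_true]
  have hone : (1 : Matrix U U K) = A * (B * (e⁻¹ • N')) := by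
    rw [← Matrix.mul_assoc, hAB, Matrix.smul_mul, Matrix.mul_smul, hNN', smul_smul,
      mul_inv_cancel₀ he, one_smul]
  have h1 : (1 : Matrix U U K).rank = 2 ^ Y.card := by
    rw [Matrix.rank_one]
    simp [U]
  have h2 : (1 : Matrix U U K).rank ≤ Fintype.card ι := by
    rw [hone]
    exact (Matrix.rank_mul_le_left _ _).trans (Matrix.rank_le_card_width A)
  rw [h1] at h2
  exact h2.trans hcard

end Pool.Agent.TH444.J1115
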