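import Mathlib
import Pool.Agent.TH708.Ari.Defs

set_option autoImplicit false

/-! Permanent and determinant of a matrix supported by the diagonal and an involution. -/

namespace Pool.Agent.TH444.J1116

open Finset
open Pool.Agent.TH708.Ari

section

variable {n : ℕ} (τ : Fin n → Fin n) (hτ : ∀ i, τ (τ i) = i)

/-- the function of the partial involution -/
def ff (T : Finset (Fin n)) (i : Fin n) : Fin n := if i ∈ T ∨ τ i ∈ T then τ i else i

include hτ in
lemma ff_inv (T : Finset (Fin n)) : Function.Involutive (ff τ T) := by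
  intro i
  unfold ff
  by_cases h : i ∈ T ∨ τ i ∈ T
  · have h' : τ i ∈ T ∨ τ (τ i) ∈ T := by rw [hτ]; exact h.symm
    rw [if_pos h, if_pos h', hτ]
  · rw [if_neg h, if_neg h]

/-- the partial involution -/
def pp (T : Finset (Fin n)) : Equiv.Perm (Fin n) := (ff_inv τ hτ T).toPerm

lemma pp_apply (T : Finset (Fin n)) (i : Fin n) : pp τ hτ T i = ff τ T i := rfl

lemma pp_empty : pp τ hτ ∅ = 1 := by
  ext i
  simp [pp_apply, ff]

variable {Y : Finset (Fin n)} (hY : ∀ y ∈ Y, τ y ∉ Y)

include hY in
lemma pp_insert {T : Finset (Fin n)} (hT : T ⊆ Y) {y : Fin n} (hy : y ∈ Y) (hyT : y ∉ T) :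
    pp τ hτ (insert y T) = Equiv.swap y (τ y) * pp τ hτ T := by
  have hτyT : τ y ∉ T := fun h => hY y hy (hT h)
  have hne : τ y ≠ y := fun h => hY y hy (by rw [h]; exact hy)
  apply Equiv.ext
  intro i
  rw [Equiv.Perm.mul_apply, pp_apply, pp_apply]
  unfold ff
  by_cases h1 : i = y
  · subst h1
    rw [if_pos (Or.inl (mem_insert_self _ _)), if_neg (by
      rintro (h | h)
      · exact hyT h
      · exact hτyT h), Equiv.swap_apply_left]
  · by_cases h2 : i = τ y
    · subst h2
      rw [hτ, if_pos (Or.inr (mem_insert_self _ _)), if_neg (by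
        rintro (h | h)
        · exact hτyT h
        · exact hyT h), Equiv.swap_apply_right]
    · have h3 : τ i ≠ y := by
        intro h
        apply h2
        rw [← h, hτ]
      have h4 : (i ∈ insert y T ∨ τ i ∈ insert y T) ↔ (i ∈ T ∨ τ i ∈ T) := by
        rw [mem_insert, mem_insert]
        simp [h1, h3]
      by_cases h5 : i ∈ T ∨ τ i ∈ T
      · rw [if_pos (h4.2 h5), if_pos h5, Equiv.swap_apply_of_ne_of_ne h3]
        intro h
        apply h1
        have := congrArg τ h
        rwa [hτ, hτ] at this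
      · rw [if_neg (fun h => h5 (h4.1 h)), if_neg h5, Equiv.swap_apply_of_ne_of_ne h1 h2]

end

variable {K : Type} [Field K] {n : ℕ}

theorem main (Y : Finset (Fin n)) (τ : Fin n → Fin n) (hτ : ∀ i, τ (τ i) = i)
    (hY : ∀ y ∈ Y, τ y ∉ Y) (hfix : ∀ i ∉ Y, τ i ∉ Y → τ i = i) (d : Fin n → K)
    (χ : Equiv.Perm (Fin n) → K) (c : K) (hχ : ∀ T ⊆ Y, χ (pp τ hτ T) = c ^ T.card) :
    ∑ π : Equiv.Perm (Fin n), χ π * ∏ i, (Matrix.of fun i j =>
      if i = j then d i else if j = τ i then (1 : K) else 0) (π i) i =
      (∏ y ∈ Y, (d y * d (τ y) + c)) * ∏ i ∈ univ.filter (fun i => τ i = i), d i := by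
  classical
  set M : Matrix (Fin n) (Fin n) K := Matrix.of fun i j =>
      if i = j then d i else if j = τ i then (1 : K) else 0 with hM
  have hMdiag : ∀ i, M i i = d i := fun i => by simp [hM]
  have hMτ : ∀ i, τ i ≠ i → M (τ i) i = 1 := fun i hi => by
    simp [hM, hi, hτ]
  have hM0 : ∀ i j, M i j ≠ 0 → i = j ∨ i = τ j := by
    intro i j h
    by_contra hcon
    push Not at hcon
    apply h
    have h1 : j ≠ τ i := by
      intro h1
      apply hcon.2
      rw [h1, hτ]
    simp [hM, hcon.1, h1]
  have hYne : ∀ y ∈ Y, τ y ≠ y := fun y hy h => hY y hy (by rw [h]; exact hy)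
  -- injectivity
  have hinj : Set.InjOn (fun T => pp τ hτ T) (Y.powerset : Set (Finset (Fin n))) := by
    intro T hT T' hT' h
    have hT1 : T ⊆ Y := Finset.mem_powerset.1 hT
    have hT2 : T' ⊆ Y := Finset.mem_powerset.1 hT'
    have key : ∀ S ⊆ Y, ∀ i, i ∈ S ↔ i ∈ Y ∧ pp τ hτ S i = τ i := by
      intro S hS i
      rw [pp_apply]
      unfold ff
      constructor
      · intro hi
        exact ⟨hS hi, by rw [if_pos (Or.inl hi)]⟩
      · rintro ⟨hi, h⟩
        by_contra hcon
        have h1 : ¬ (i ∈ S ∨ τ i ∈ S) := by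
          rintro (h | h)
          · exact hcon h
          · exact hY i hi (hS h)
        rw [if_neg h1] at h
        exact hYne i hi h.symm
    ext i
    rw [key T hT1, key T' hT2]
    have : pp τ hτ T = pp τ hτ T' := h
    rw [this]
  -- the other permutations do not contribute
  have hsum : ∑ π : Equiv.Perm (Fin n), χ π * ∏ i, M (π i) i =
      ∑ T ∈ Y.powerset, χ (pp τ hτ T) * ∏ i, M (pp τ hτ T i) i := by
    rw [← Finset.sum_image (f := fun π => χ π * ∏ i, M (π i) i) hinj]
    symm
    apply Finset.sum_subset (Finset.subset_univ _)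
    intro π _ hπ
    by_contra hne
    apply hπ
    have hall : ∀ i, π i = i ∨ π i = τ i := by
      intro i
      apply hM0
      intro h0
      apply hne
      have h5 : ∏ i, M (π i) i = 0 :=
        Finset.prod_eq_zero (f := fun i => M (π i) i) (Finset.mem_univ i) h0
      rw [h5, mul_zero]
    rw [mem_image]
    refine ⟨Y.filter (fun y => π y = τ y), Finset.mem_powerset.2 (Finset.filter_subset _ _), ?_⟩
    apply Equiv.ext
    intro i
    rw [pp_apply]
    unfold ff
    by_cases hi : i ∈ Y
    · have hτi := hY i hi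
      by_cases h : π i = τ i
      · rw [if_pos (Or.inl (mem_filter.2 ⟨hi, h⟩)), h]
      · rw [if_neg]
        · exact ((hall i).resolve_right h).symm
        · rintro (h' | h')
          · exact h (mem_filter.1 h').2
          · exact hτi (mem_filter.1 h').1
    · by_cases hτi : τ i ∈ Y
      · have hne' : τ i ≠ i := fun h => hi (by rw [← h]; exact hτi)
        by_cases h : π (τ i) = τ (τ i)
        · rw [if_pos (Or.inr (mem_filter.2 ⟨hτi, h⟩))]
          rcases hall i with h1 | h1
          · exfalso
            rw [hτ] at h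
            exact hne' (π.injective (h.trans h1.symm))
          · exact h1.symm
        · rw [if_neg]
          · rcases hall i with h1 | h1
            · exact h1.symm
            · exfalso
              have h2 := (hall (τ i)).resolve_right h
              exact hne' (π.injective (h2.trans h1.symm))
          · rintro (h' | h')
            · exact hi (mem_filter.1 h').1
            · exact h (mem_filter.1 h').2
      · have hfi := hfix i hi hτi
        rcases hall i with h1 | h1
        · rw [h1, hfi, ite_self]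
        · rw [h1, hfi, ite_self]
  rw [hsum]
  -- the products
  have hprod : ∀ T ∈ Y.powerset, ∏ i, M (pp τ hτ T i) i =
      (∏ y ∈ Y \ T, (d y * d (τ y))) * ∏ i ∈ univ.filter (fun i => τ i = i), d i := by
    intro T hT
    have hTY := Finset.mem_powerset.1 hT
    have h1 : ∏ i, M (pp τ hτ T i) i = ∏ i ∈ univ.filter (fun i => ¬ (i ∈ T ∨ τ i ∈ T)), d i := by
      rw [Finset.prod_filter]
      apply Finset.prod_congr rfl
      intro i _
      rw [pp_apply]
      unfold ff
      by_cases h : i ∈ T ∨ τ i ∈ T
      · rw [if_pos h, if_neg (not_not.2 h)]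
        apply hMτ
        intro h2
        rcases h with h | h
        · exact hYne i (hTY h) h2
        · have h3 := hY (τ i) (hTY h)
          rw [hτ] at h3
          rw [h2] at h
          exact h3 (hTY h)
      · rw [if_neg h, if_pos h, hMdiag]
    have h2 : univ.filter (fun i => ¬ (i ∈ T ∨ τ i ∈ T)) =
        ((Y \ T) ∪ (Y \ T).image τ) ∪ univ.filter (fun i => τ i = i) := by
      ext i
      simp only [mem_filter, mem_univ, true_and, mem_union, mem_sdiff, mem_image, not_or]
      constructor
      · rintro ⟨h3, h4⟩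
        by_cases hi : i ∈ Y
        · exact Or.inl (Or.inl ⟨hi, h3⟩)
        · by_cases hτi : τ i ∈ Y
          · exact Or.inl (Or.inr ⟨τ i, ⟨hτi, h4⟩, hτ i⟩)
          · exact Or.inr (hfix i hi hτi)
      · rintro ((⟨h3, h4⟩ | ⟨j, ⟨h3, h4⟩, rfl⟩) | h3)
        · exact ⟨h4, fun h5 => hY i h3 (hTY h5)⟩
        · exact ⟨fun h5 => hY j h3 (hTY h5), by rw [hτ]; exact h4⟩
        · have h4 : i ∉ T := fun h5 => hYne i (hTY h5) h3
          exact ⟨h4, by rw [h3]; exact h4⟩
    have hd1 : Disjoint (Y \ T) ((Y \ T).image τ) := by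
      rw [Finset.disjoint_left]
      intro i hi hi'
      obtain ⟨j, hj, rfl⟩ := mem_image.1 hi'
      exact hY j (mem_sdiff.1 hj).1 (mem_sdiff.1 hi).1
    have hd2 : Disjoint ((Y \ T) ∪ (Y \ T).image τ) (univ.filter (fun i => τ i = i)) := by
      rw [Finset.disjoint_left]
      intro i hi hi'
      have h3 := (mem_filter.1 hi').2
      rcases mem_union.1 hi with hi | hi
      · exact hYne i (mem_sdiff.1 hi).1 h3
      · obtain ⟨j, hj, rfl⟩ := mem_image.1 hi
        rw [hτ] at h3
        exact hYne j (mem_sdiff.1 hj).1 h3.symm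
    have hτinj : Set.InjOn τ (Y \ T : Finset (Fin n)) := by
      intro i _ j _ h
      have := congrArg τ h
      rwa [hτ, hτ] at this
    rw [h1, h2, Finset.prod_union hd2, Finset.prod_union hd1, Finset.prod_image hτinj,
      ← Finset.prod_mul_distrib]
  have hterm : ∀ T ∈ Y.powerset, χ (pp τ hτ T) * ∏ i, M (pp τ hτ T i) i =
      ((∏ _y ∈ T, c) * ∏ y ∈ Y \ T, (d y * d (τ y))) *
        ∏ i ∈ univ.filter (fun i => τ i = i), d i := by
    intro T hT
    rw [hprod T hT, hχ T (Finset.mem_powerset.1 hT), Finset.prod_const]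
    ring
  rw [Finset.sum_congr rfl hterm, ← Finset.sum_mul, ← Finset.prod_add]
  congr 1
  apply Finset.prod_congr rfl
  intro y _
  ring

theorem mtch : T_match := by
  classical
  intro K _ n Y τ hτ hY hfix d
  refine ⟨?_, ?_⟩
  · have h := main Y τ hτ hY hfix d (fun _ => 1) 1 (fun T _ => by simp)
    rw [← h]
    unfold Matrix.permanent
    simp
  · have hχ : ∀ T ⊆ Y, (((Equiv.Perm.sign (pp τ hτ T) : ℤˣ) : ℤ) : K) = (-1) ^ T.card := by
      intro T
      induction T using Finset.induction_on with
      | empty => intro _; simp [pp_empty]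
      | insert y T hy ih =>
        intro hT
        have h1 : y ∈ Y := hT (mem_insert_self _ _)
        have h2 : T ⊆ Y := fun i hi => hT (mem_insert_of_mem hi)
        have hne : y ≠ τ y := fun h => hY y h1 (by rw [← h]; exact h1)
        rw [pp_insert τ hτ hY h2 h1 hy, Equiv.Perm.sign_mul, Equiv.Perm.sign_swap hne,
          Finset.card_insert_of_notMem hy, pow_succ, ← ih h2]
        push_cast
        ring
    have h := main Y τ hτ hY hfix d
      (fun π => (((Equiv.Perm.sign π : ℤˣ) : ℤ) : K)) (-1) hχ
    rw [Matrix.det_apply', h]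
    simp only [sub_eq_add_neg]

end Pool.Agent.TH444.J1116
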